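import Mathlib

set_option autoImplicit false

namespace Pool.Agent.Results.MP_c1c042_nt.FiniteNotOnto

/-- The generalized Collatz mapping with modulus `d` and data `m`, `r`:
`x ↦ (m_i x - r_i) / d` for `x ≡ i (mod d)`, `0 ≤ i < d`. -/
def T (d : ℕ) (m r : ℕ → ℤ) (x : ℤ) : ℤ :=
  (m (x % (d : ℤ)).toNat * x - r (x % (d : ℤ)).toNat) / (d : ℤ)

/-- The residue class of `j` modulo `M`. -/
def B (j : ℤ) (M : ℕ) : Set ℤ := {x : ℤ | x ≡ j [ZMOD (M : ℤ)]}

open Classical in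
/-- The density of a set that is a union of residue classes modulo some `M ≥ 1`, i.e. is
invariant under translation by `M`: the number of its residue classes modulo the least such `M`,
divided by that `M` (and `0` for a set that is not such a union). -/
noncomputable def mu (S : Set ℤ) : ℝ :=
  if h : ∃ M : ℕ, 0 < M ∧ ∀ x : ℤ, x + (M : ℤ) ∈ S ↔ x ∈ S then
    ((S ∩ Set.Ico (0 : ℤ) (Nat.find h : ℕ)).ncard : ℝ) / ((Nat.find h : ℕ) : ℝ)
  else 0

/-- The transition matrix `Q_T(m)`. -/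
noncomputable def Q (f : ℤ → ℤ) (m : ℕ) (i j : Fin m) : ℝ :=
  mu (B (i : ℕ) m ∩ f ⁻¹' B (j : ℕ) m) / mu (B (i : ℕ) m)

/-- `C` is a positive recurrent class (a closed communicating class) of the finite chain with
transition matrix `q`. -/
def IsRecurrentClass {m : ℕ} (q : Fin m → Fin m → ℝ) (C : Set (Fin m)) : Prop :=
  C.Nonempty ∧ (∀ i ∈ C, ∀ j, 0 < q i j → j ∈ C) ∧
    ∀ i ∈ C, ∀ j ∈ C, Relation.ReflTransGen (fun a b => 0 < q a b) i j

/-- The collection of the sets `S_C` for all moduli `m ≥ 2` and all positive recurrent classes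
`C` of `Q_T(m)`. -/
def ergodicSets (f : ℤ → ℤ) : Set (Set ℤ) :=
  {S | ∃ m : ℕ, 2 ≤ m ∧ ∃ C : Set (Fin m), IsRecurrentClass (Q f m) C ∧
    S = {x : ℤ | ∃ j ∈ C, x ∈ B (j : ℕ) m}}

/-- positivity of the density of a nonempty periodic set -/
theorem mu_pos {S : Set ℤ} {M : ℕ} (hM : 0 < M) (hper : ∀ x : ℤ, x + (M : ℤ) ∈ S ↔ x ∈ S)
    (hne : S.Nonempty) : 0 < mu S := by
  classical
  have h : ∃ M : ℕ, 0 < M ∧ ∀ x : ℤ, x + (M : ℤ) ∈ S ↔ x ∈ S := ⟨M, hM, hper⟩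
  unfold mu
  rw [dif_pos h]
  obtain ⟨hP, hPper⟩ := Nat.find_spec h
  set P := Nat.find h with hPdef
  obtain ⟨x, hx⟩ := hne
  have hper' : ∀ (k : ℕ) (y : ℤ), y + (k : ℤ) * (P : ℤ) ∈ S ↔ y ∈ S := by
    intro k
    induction k with
    | zero => intro y; simp
    | succ k ih =>
      intro y
      have : y + ((k + 1 : ℕ) : ℤ) * (P : ℤ) = (y + (k : ℤ) * (P : ℤ)) + P := by
        push_cast; ring
      rw [this, hPper, ih]
  have hP0 : (0 : ℤ) < P := by exact_mod_cast hP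
  have hmod : x % (P : ℤ) ∈ S := by
    have hdm := Int.emod_add_mul_ediv x (P : ℤ)
    rcases le_total 0 (x / (P : ℤ)) with hq | hq
    · obtain ⟨k, hk⟩ := Int.eq_ofNat_of_zero_le hq
      rw [← hper' k (x % (P : ℤ))]
      have : x % (P : ℤ) + (k : ℤ) * (P : ℤ) = x := by
        rw [← hk]; linarith [mul_comm (P : ℤ) (x / (P : ℤ))]
      rw [this]; exact hx
    · obtain ⟨k, hk⟩ := Int.eq_ofNat_of_zero_le (by omega : 0 ≤ -(x / (P : ℤ)))
      have h2 := hper' k x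
      have : x + (k : ℤ) * (P : ℤ) = x % (P : ℤ) := by
        have h3 : (k : ℤ) = -(x / (P : ℤ)) := hk.symm
        rw [h3]; linarith [mul_comm (P : ℤ) (x / (P : ℤ))]
      rw [this] at h2
      exact h2.mpr hx
  have hfin : (S ∩ Set.Ico (0 : ℤ) (P : ℕ)).Finite := (Set.finite_Ico _ _).subset (by
    intro y hy; exact hy.2)
  have hpos : 0 < (S ∩ Set.Ico (0 : ℤ) (P : ℕ)).ncard := by
    rw [Set.ncard_pos hfin]
    exact ⟨x % (P : ℤ), hmod, Int.emod_nonneg _ (by omega), Int.emod_lt_of_pos _ hP0⟩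
  have h1 : (0 : ℝ) < ((S ∩ Set.Ico (0 : ℤ) (P : ℕ)).ncard : ℝ) := by exact_mod_cast hpos
  have h2 : (0 : ℝ) < (P : ℝ) := by exact_mod_cast hP
  positivity

theorem mu_empty : mu ∅ = 0 := by
  unfold mu
  split_ifs <;> simp

theorem mem_B_iff (x j : ℤ) (M : ℕ) : x ∈ B j M ↔ x ≡ j [ZMOD (M : ℤ)] := Iff.rfl

/-- the explicit map `x ↦ 2 ⌊x/5⌋` -/
def g (x : ℤ) : ℤ := 2 * (x / 5)

theorem T_eq : T 5 (fun _ => 2) (fun i => 2 * (i : ℤ)) = g := by
  funext x
  unfold T g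
  have h0 : 0 ≤ x % 5 := Int.emod_nonneg _ (by norm_num)
  have h1 : (((x % ((5 : ℕ) : ℤ)).toNat : ℕ) : ℤ) = x % 5 := by
    rw [Int.toNat_of_nonneg (by exact_mod_cast h0)]
    norm_num
  simp only [h1]
  have h2 : (((5 : ℕ) : ℤ)) = 5 := by norm_num
  rw [h2]
  omega

theorem Q_pos_iff {m : ℕ} (hm : 0 < m) (i j : Fin m) :
    0 < Q g m i j ↔ ∃ x : ℤ, x ∈ B (i : ℕ) m ∧ g x ∈ B (j : ℕ) m := by
  have hB : 0 < mu (B (i : ℕ) m) := by
    refine mu_pos (M := m) hm ?_ ⟨((i : ℕ) : ℤ), Int.ModEq.refl _⟩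
    intro x
    rw [mem_B_iff, mem_B_iff]
    unfold Int.ModEq
    rw [Int.add_emod_right]
  constructor
  · intro h
    by_contra hcon
    have he : B (i : ℕ) m ∩ g ⁻¹' B (j : ℕ) m = ∅ := by
      ext x
      simp only [Set.mem_inter_iff, Set.mem_preimage, Set.mem_empty_iff_false, iff_false]
      intro hx
      exact hcon ⟨x, hx⟩
    unfold Q at h
    rw [he, mu_empty, zero_div] at h
    exact lt_irrefl _ h
  · rintro ⟨x, hx1, hx2⟩
    unfold Q
    refine div_pos (mu_pos (M := 5 * m) (by omega) ?_ ⟨x, hx1, hx2⟩) hB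
    intro y
    have h1 : g (y + ((5 * m : ℕ) : ℤ)) = g y + (m : ℤ) * 2 := by
      unfold g
      push_cast
      rw [Int.add_mul_ediv_left _ _ (by norm_num : (5 : ℤ) ≠ 0)]
      ring
    simp only [Set.mem_inter_iff, Set.mem_preimage, mem_B_iff]
    rw [h1]
    unfold Int.ModEq
    rw [Int.add_mul_emod_self_left]
    have h3 : (y + ((5 * m : ℕ) : ℤ)) % (m : ℤ) = y % (m : ℤ) := by
      have : (y + ((5 * m : ℕ) : ℤ)) = y + (m : ℤ) * 5 := by push_cast; ring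
      rw [this, Int.add_mul_emod_self_left]
    rw [h3]

/-- inverse iterates of an even number contain arbitrarily long intervals -/
theorem long_interval (z : ℤ) (hz : Even z) (N : ℕ) :
    ∃ (k : ℕ) (a : ℤ), ∀ x : ℤ, a ≤ x → x < a + N + 5 → g^[k] x = z := by
  induction N with
  | zero =>
    obtain ⟨w, hw⟩ := hz
    refine ⟨1, 5 * w, fun x h1 h2 => ?_⟩
    simp only [Function.iterate_one]
    unfold g
    push_cast at h2
    omega
  | succ N ih =>
    obtain ⟨k, a, h⟩ := ih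
    refine ⟨k + 1, 5 * ((a + 1) / 2), fun x h1 h2 => ?_⟩
    rw [Function.iterate_succ_apply]
    push_cast at h2
    apply h
    · unfold g; omega
    · unfold g; omega

/-- the state of an integer -/
def cls {m : ℕ} (hm : 0 < m) (x : ℤ) : Fin m :=
  ⟨(x % (m : ℤ)).toNat, by
    have h1 : x % (m : ℤ) < m := Int.emod_lt_of_pos _ (by exact_mod_cast hm)
    have h0 : 0 ≤ x % (m : ℤ) := Int.emod_nonneg _ (by omega)
    omega⟩

theorem cls_val {m : ℕ} (hm : 0 < m) (x : ℤ) : (((cls hm x : Fin m) : ℕ) : ℤ) = x % (m : ℤ) := by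
  have h0 : 0 ≤ x % (m : ℤ) := Int.emod_nonneg _ (by omega)
  exact Int.toNat_of_nonneg h0

theorem mem_B_cls {m : ℕ} (hm : 0 < m) (x : ℤ) : x ∈ B ((cls hm x : Fin m) : ℕ) m := by
  rw [mem_B_iff, cls_val]
  exact (Int.mod_modEq x m).symm

theorem mem_B_iff_cls {m : ℕ} (hm : 0 < m) (x : ℤ) (i : Fin m) :
    x ∈ B (i : ℕ) m ↔ cls hm x = i := by
  constructor
  · intro h
    rw [mem_B_iff] at h
    unfold Int.ModEq at h
    have hi : ((i : ℕ) : ℤ) % (m : ℤ) = ((i : ℕ) : ℤ) :=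
      Int.emod_eq_of_lt (by positivity) (by exact_mod_cast i.isLt)
    have h2 := cls_val hm x
    rw [h, hi] at h2
    exact Fin.ext (by exact_mod_cast h2)
  · rintro rfl
    exact mem_B_cls hm x

theorem reach {m : ℕ} (hm : 0 < m) (k : ℕ) (x : ℤ) :
    Relation.ReflTransGen (fun a b => 0 < Q g m a b) (cls hm x) (cls hm (g^[k] x)) := by
  induction k with
  | zero => exact Relation.ReflTransGen.refl
  | succ k ih =>
    refine ih.tail ?_
    rw [Q_pos_iff hm]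
    refine ⟨g^[k] x, mem_B_cls hm _, ?_⟩
    rw [Function.iterate_succ_apply']
    exact mem_B_cls hm _

theorem reach_even {m : ℕ} (hm : 0 < m) (i : Fin m) (z : ℤ) (hz : Even z) :
    Relation.ReflTransGen (fun a b => 0 < Q g m a b) i (cls hm z) := by
  obtain ⟨k, a, h⟩ := long_interval z hz m
  have hm' : (0 : ℤ) < m := by exact_mod_cast hm
  set x : ℤ := a + ((((i : ℕ) : ℤ) - a) % (m : ℤ)) with hx
  have h0 : 0 ≤ (((i : ℕ) : ℤ) - a) % (m : ℤ) := Int.emod_nonneg _ (by omega)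
  have h1 : (((i : ℕ) : ℤ) - a) % (m : ℤ) < m := Int.emod_lt_of_pos _ hm'
  have h2 : g^[k] x = z := h x (by omega) (by omega)
  have h3 : cls hm x = i := by
    rw [← mem_B_iff_cls, mem_B_iff]
    have h4 : (((i : ℕ) : ℤ) - a) % (m : ℤ) ≡ (((i : ℕ) : ℤ) - a) [ZMOD (m : ℤ)] :=
      Int.mod_modEq _ _
    have h5 := Int.ModEq.add_left a h4
    have h6 : a + (((i : ℕ) : ℤ) - a) = ((i : ℕ) : ℤ) := by ring
    rw [h6] at h5
    exact h5
  have h7 := reach hm k x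
  rw [h3, h2] at h7
  exact h7

theorem closed_reach {m : ℕ} {q : Fin m → Fin m → ℝ} {C : Set (Fin m)}
    (hC : ∀ i ∈ C, ∀ j, 0 < q i j → j ∈ C) {i j : Fin m} (hi : i ∈ C)
    (h : Relation.ReflTransGen (fun a b => 0 < q a b) i j) : j ∈ C := by
  induction h with
  | refl => exact hi
  | tail _ h2 ih => exact hC _ ih _ h2

theorem ergodic_subset : ergodicSets g ⊆ {Set.univ, {x : ℤ | Even x}} := by
  rintro S ⟨m, hm2, C, ⟨⟨i0, hi0⟩, hclosed, hcomm⟩, rfl⟩
  have hm : 0 < m := by omega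
  have hCeven : ∀ j : Fin m, j ∈ C ↔ ∃ z : ℤ, Even z ∧ cls hm z = j := by
    intro j
    constructor
    · intro hj
      -- one step from `i0`
      have hstep : 0 < Q g m i0 (cls hm (g ((i0 : ℕ) : ℤ))) := by
        rw [Q_pos_iff hm]
        exact ⟨((i0 : ℕ) : ℤ), Int.ModEq.refl _, mem_B_cls hm _⟩
      have h1 := hclosed i0 hi0 _ hstep
      have h2 := hcomm _ h1 j hj
      rcases Relation.ReflTransGen.cases_tail h2 with h3 | ⟨c, _, h4⟩
      · exact ⟨g ((i0 : ℕ) : ℤ), ⟨((i0 : ℕ) : ℤ) / 5, by unfold g; ring⟩, h3.symm⟩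
      · rw [Q_pos_iff hm] at h4
        obtain ⟨y, _, hy⟩ := h4
        exact ⟨g y, ⟨y / 5, by unfold g; ring⟩, (mem_B_iff_cls hm _ _).mp hy⟩
    · rintro ⟨z, hz, rfl⟩
      exact closed_reach hclosed hi0 (reach_even hm i0 z hz)
  have hS : {x : ℤ | ∃ j ∈ C, x ∈ B (j : ℕ) m} =
      {x : ℤ | ∃ z : ℤ, Even z ∧ x ≡ z [ZMOD (m : ℤ)]} := by
    ext x
    constructor
    · rintro ⟨j, hj, hx⟩
      obtain ⟨z, hz, rfl⟩ := (hCeven j).mp hj
      refine ⟨z, hz, ?_⟩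
      have h1 : x ≡ (((cls hm z : Fin m) : ℕ) : ℤ) [ZMOD (m : ℤ)] := hx
      exact h1.trans (show z ∈ B ((cls hm z : Fin m) : ℕ) m from mem_B_cls hm z).symm
    · rintro ⟨z, hz, hx⟩
      refine ⟨cls hm z, (hCeven _).mpr ⟨z, hz, rfl⟩, ?_⟩
      rw [mem_B_iff]
      exact hx.trans (mem_B_cls hm z)
  rw [hS]
  rcases Nat.even_or_odd m with he | ho
  · right
    show _ = {x : ℤ | Even x}
    ext x
    constructor
    · rintro ⟨z, hz, hx⟩
      have h2 : (2 : ℤ) ∣ (m : ℤ) := by exact_mod_cast he.two_dvd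
      have h3 : (m : ℤ) ∣ z - x := Int.ModEq.dvd hx
      have h4 : (2 : ℤ) ∣ z - x := h2.trans h3
      have h5 : (2 : ℤ) ∣ z := hz.two_dvd
      show Even x
      rw [even_iff_two_dvd]
      omega
    · intro hx
      exact ⟨x, hx, Int.ModEq.refl _⟩
  · left
    ext x
    simp only [Set.mem_univ, iff_true]
    show ∃ z : ℤ, Even z ∧ x ≡ z [ZMOD (m : ℤ)]
    rcases Int.even_or_odd x with hx | hx
    · exact ⟨x, hx, Int.ModEq.refl _⟩
    · have hmo : Odd (m : ℤ) := by exact_mod_cast ho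
      exact ⟨x + m, hx.add_odd hmo, by
        unfold Int.ModEq
        rw [Int.add_emod_right]⟩

/-- There is a generalized Collatz mapping `T` of relatively prime type with `T(ℤ) ≠ ℤ` for which
the collection of ergodic sets is finite. -/
theorem result : ∃ (d : ℕ) (m r : ℕ → ℤ), 2 ≤ d ∧ (∀ i < d, m i ≠ 0) ∧
    (∀ i < d, r i ≡ (i : ℤ) * m i [ZMOD (d : ℤ)]) ∧
    Int.gcd (∏ i ∈ Finset.range d, m i) (d : ℤ) = 1 ∧
    Set.range (T d m r) ≠ Set.univ ∧ (ergodicSets (T d m r)).Finite := by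
  refine ⟨5, fun _ => 2, fun i => 2 * (i : ℤ), by norm_num, fun _ _ => by norm_num, ?_, ?_, ?_, ?_⟩
  · intro i _
    show 2 * (i : ℤ) ≡ (i : ℤ) * 2 [ZMOD ((5 : ℕ) : ℤ)]
    rw [mul_comm]
  · simp only [Finset.prod_const, Finset.card_range]
    decide
  · rw [T_eq]
    intro h
    have h1 : (1 : ℤ) ∈ Set.range g := by rw [h]; trivial
    obtain ⟨x, hx⟩ := h1
    unfold g at hx
    omega
  · rw [T_eq]
    exact Set.Finite.subset (Set.toFinite _) ergodic_subset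

end Pool.Agent.Results.MP_c1c042_nt.FiniteNotOnto
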